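import Pool.Agent.Lib.MP_bc213e_ag.TE.U.C
import Pool.Agent.Lib.MP_bc213e_ag.TE.IDefs

/-! Components of tensors in a frame and change of the frame. -/

namespace Pool.Agent.Lib.MP_bc213e_ag.TE

open Pool.Agent.Lib.MP_bc213e_ag.Hyp Pool.Agent.Lib.MP_bc213e_ag.DA Pool.Agent.Lib.MP_bc213e_ag.Jet
open Pool.Agent.Lib.MP_bc213e_ag.DD MvPolynomial
open scoped TensorProduct MonomialOrder

noncomputable section

variable {K M ι : Type} [Field K] [Algebra ℂ K] [Field M] [Algebra ℂ M] [Algebra K M] {n : ℕ}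

section cmp

variable (S : Su K M ι n) {κ : Type} [Fintype κ] (δ : κ → Derivation ℂ M M) (k : ℕ)

/-- The components of a tensor on the vector fields `δ`. -/
def cmpM : MvPolynomial (Fin k × Fin n) M →ₐ[M] MvPolynomial (Fin k × κ) M :=
  aeval fun v => ∑ d, C (δ d (algebraMap K M (S.τ v.2))) * X (v.1, d)

/-- The components after extension of the constants. -/
def cmpT (Ω : Type) [Field Ω] [Algebra ℂ Ω] :
    Ω ⊗[ℂ] MvPolynomial (Fin k × Fin n) M →ₐ[Ω] MvPolynomial (Fin k × κ) (Ω ⊗[ℂ] M) :=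
  evT Ω ((mapAlgHom Algebra.TensorProduct.includeRight).comp ((cmpM S δ k).restrictScalars ℂ))

variable {Ω : Type} [Field Ω] [Algebra ℂ Ω]

theorem cmpT_tmul (c : Ω) (P : MvPolynomial (Fin k × Fin n) M) : cmpT S δ k Ω (c ⊗ₜ P) =
    C (c ⊗ₜ 1) * map Algebra.TensorProduct.includeRight.toRingHom (cmpM S δ k P) := rfl

theorem coeff_cmpT (c : Ω) (P : MvPolynomial (Fin k × Fin n) M) (ν : Fin k × κ →₀ ℕ) :
    (cmpT S δ k Ω (c ⊗ₜ P)).coeff ν = c ⊗ₜ (cmpM S δ k P).coeff ν := by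
  rw [cmpT_tmul, coeff_C_mul, coeff_map]
  simp

/-- Ring homomorphisms on the tensors with extended constants. -/
theorem ext_T {σ R : Type} [CommRing R] {f g : Ω ⊗[ℂ] MvPolynomial σ M →+* R}
    (h1 : ∀ c y, f (c ⊗ₜ C y) = g (c ⊗ₜ C y)) (h2 : ∀ v, f (1 ⊗ₜ X v) = g (1 ⊗ₜ X v)) (s) :
    f s = g s := by
  induction s with
  | zero => rw [map_zero, map_zero]
  | add s t hs ht => rw [map_add, map_add, hs, ht]
  | tmul c P =>
    induction P using MvPolynomial.induction_on with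
    | C y => exact h1 c y
    | add P Q hP hQ => rw [TensorProduct.tmul_add, map_add, map_add, hP, hQ]
    | mul_X P v hP =>
      rw [← mul_one c, ← Algebra.TensorProduct.tmul_mul_tmul, map_mul, map_mul, hP, h2]

theorem cmpT_C (c : Ω) (y : M) : cmpT S δ k Ω (c ⊗ₜ C y) = C (c ⊗ₜ y) := by
  rw [cmpT_tmul, cmpM, aeval_C, algebraMap_eq, map_C, ← map_mul]
  simp

theorem cmpT_X (v : Fin k × Fin n) : cmpT S δ k Ω (1 ⊗ₜ X v) =
    ∑ d, C (1 ⊗ₜ δ d (algebraMap K M (S.τ v.2))) * X (v.1, d) := by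
  rw [cmpT_tmul, cmpM, aeval_X, ← Algebra.TensorProduct.one_def, map_one, one_mul]
  simp

end cmp

variable {b φ : ℕ}

/-- The vector fields of a frame that kill `y j₀`. -/
def cut (j₀ : Fin b) (D : Fin b ⊕ Fin φ → Derivation ℂ M M) (d : Fin b ⊕ Fin φ) :
    Derivation ℂ M M := if d = Sum.inl j₀ then 0 else D d

/-- The logarithmic weights. -/
def wt {k : ℕ} (x : Fin k × (Fin b ⊕ Fin φ)) : Fin b →₀ ℕ :=
  x.2.elim (fun i => Finsupp.single i 1) fun _ => 0

variable {S : Su K M ι n} {Ω E : Type} [Field Ω] [Algebra ℂ Ω] [Field E] [Algebra ℂ E] [Algebra Ω E]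
  [IsScalarTower ℂ Ω E] (G : Geo S Ω E b φ) [CharZero E] {k : ℕ} (j₀ : Fin b)
  {z z' : Fin φ → M} {D D' : Fin b ⊕ Fin φ → Derivation ℂ M M}

theorem PhP_eq (ω : Ω ⊗[ℂ] MvPolynomial (Fin k × Fin n) M) :
    G.PhP j₀ k ω = Pht G.ty.toRingHom wt (cmpT S (cut j₀ G.D₀) k Ω ω) := by
  refine ext_T (f := (G.PhP j₀ k).toRingHom)
    (g := (Pht G.ty.toRingHom wt).comp (cmpT S (cut j₀ G.D₀) k Ω).toRingHom)
    (fun c y => ?_) (fun v => ?_) ω
  · change G.PhP j₀ k _ = Pht _ _ (cmpT S _ k Ω _)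
    rw [cmpT_C, Pht_C, Geo.PhP, evT_tmul, aevalTower_C, ← mul_one c, ← one_mul y,
      ← Algebra.TensorProduct.tmul_mul_tmul, mul_one, one_mul, map_mul, map_mul,
      MvPolynomial.algebraMap_apply]
    exact congrArg (fun t => C t * _) (G.ty.commutes c).symm
  · change G.PhP j₀ k _ = Pht _ _ (cmpT S _ k Ω _)
    rw [cmpT_X, Geo.PhP, evT_tmul, aevalTower_X, map_one, one_mul, Geo.dL, map_sum]
    refine Finset.sum_congr rfl fun d _ => ?_
    rw [map_mul (Pht _ _), Pht_C, Pht_X, ← mul_assoc, ← map_mul, cut, mul_comm (Geo.et _ _ _)]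
    rcases d with i | d
    · by_cases h : i = j₀ <;> simp [Geo.et, wt, h, MvPowerSeries.X_def]
    · simp [Geo.et, wt]

/-- The leading term of the change of frame. -/
def psi (D : Fin b ⊕ Fin φ → Derivation ℂ M M) (z' : Fin φ → M) (x : Fin k × (Fin b ⊕ Fin φ)) :
    MvPolynomial (Fin k × (Fin b ⊕ Fin φ)) E :=
  x.2.elim (fun i => if i = j₀ then 0 else X (x.1, Sum.inl i))
    fun c => ∑ d, C (G.ι (D (Sum.inr d) (z' c))) * X (x.1, Sum.inr d)

omit [CharZero E] in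
theorem cut_y (h : Frame (Sum.elim G.y z) D) (d : Fin b ⊕ Fin φ) (i : Fin b) :
    cut j₀ D d (G.y i) = if d = Sum.inl i ∧ i ≠ j₀ then 1 else 0 := by
  rw [cut]
  by_cases h1 : d = Sum.inl j₀
  · rw [if_pos h1, if_neg fun e => e.2 (Sum.inl_injective (e.1.symm.trans h1))]
    rfl
  · rw [if_neg h1]
    refine (h.dual d (Sum.inl i)).trans (if_congr ⟨fun e => ⟨e, fun e' => h1 ?_⟩, And.left⟩ rfl rfl)
    rw [e, e']

omit [CharZero E] in
theorem cmpT_chain (h : Frame (Sum.elim G.y z) D) (h' : Frame (Sum.elim G.y z') D')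
    (ω : Ω ⊗[ℂ] MvPolynomial (Fin k × Fin n) M) :
    cmpT S (cut j₀ D) k Ω ω = aeval (fun x : Fin k × (Fin b ⊕ Fin φ) =>
      ∑ d, C ((1 : Ω) ⊗ₜ[ℂ] cut j₀ D d (Sum.elim G.y z' x.2)) * X (x.1, d))
        (cmpT S (cut j₀ D') k Ω ω) := by
  refine ext_T (f := (cmpT S (cut j₀ D) k Ω).toRingHom)
    (g := (aeval _).toRingHom.comp (cmpT S (cut j₀ D') k Ω).toRingHom)
    (fun c y => ?_) (fun v => ?_) ω
  · change cmpT S _ k Ω _ = aeval _ (cmpT S _ k Ω _)
    rw [cmpT_C, cmpT_C, aeval_C, algebraMap_eq]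
  · change cmpT S _ k Ω _ = aeval _ (cmpT S _ k Ω _)
    rw [cmpT_X, cmpT_X, map_sum]
    simp only [map_mul, aeval_C, aeval_X, algebraMap_eq, Finset.mul_sum]
    rw [Finset.sum_comm]
    refine Finset.sum_congr rfl fun d _ => ?_
    rw [h'.expand (cut j₀ D d), TensorProduct.tmul_sum, map_sum, Finset.sum_mul]
    refine Finset.sum_congr rfl fun d' _ => ?_
    rw [← mul_assoc, ← map_mul, Algebra.TensorProduct.tmul_mul_tmul, one_mul, mul_comm (cut _ D' _ _)]
    by_cases e : d' = Sum.inl j₀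
    · simp [e, cut_y G j₀ h]
    · rw [cut.eq_1 j₀ D', if_neg e]

theorem Ld_change (h : Frame (Sum.elim G.y z) D) (h' : Frame (Sum.elim G.y z') D')
    {α : Fin b →₀ ℕ} {ω : Ω ⊗[ℂ] MvPolynomial (Fin k × Fin n) M}
    {Λ : MvPolynomial (Fin k × (Fin b ⊕ Fin φ)) E}
    (hω : Ld MonomialOrder.degLex α (Pht (tayL Ω G.ι (Comm.inl h'.comm)).toRingHom wt
      (cmpT S (cut j₀ D') k Ω ω)) Λ) :
    Ld MonomialOrder.degLex α (Pht (tayL Ω G.ι (Comm.inl h.comm)).toRingHom wt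
      (cmpT S (cut j₀ D) k Ω ω)) (Λ.eval₂ C (psi G j₀ D z')) := by
  rw [cmpT_chain G j₀ h h']
  let ta := (tayL Ω G.ι (Comm.inl h.comm)).toRingHom
  let Q := fun x : Fin k × (Fin b ⊕ Fin φ) =>
    ∑ d, C ((1 : Ω) ⊗ₜ[ℂ] cut j₀ D d (Sum.elim G.y z' x.2)) * X (x.1, d)
  have h1 := Ld_sub MonomialOrder.degLex ta wt Q (fun x => x.2.elim
    (fun _ => MvPowerSeries.C (psi G j₀ D z' x)) fun _ => swap (Pht ta wt (Q x)))
    (fun x => ?_) (Ld_frame G h' h wt hω)
  · refine (congrArg (fun f => Ld _ α _ (Λ.eval₂ C f)) (funext fun x => ?_)).mpr h1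
    obtain ⟨s, i | c⟩ := x
    · exact (MvPowerSeries.constantCoeff_C _).symm
    · simp only [Q, Sum.elim_inr, map_add, map_sum, map_mul, Pht_C, Pht_X, swap, eval₂Hom_C, eval₂Hom_X',
        Fintype.sum_sum_type, MvPowerSeries.constantCoeff_C, MvPowerSeries.constantCoeff_map, psi]
      rw [Finset.sum_eq_zero (s := (Finset.univ : Finset (Fin b))) fun i _ => ?_, zero_add]
      · refine Finset.sum_congr rfl fun d _ => ?_
        rw [show MvPowerSeries.constantCoeff (ta _) = _ from constantCoeff_tayL _ _ _, evT_one]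
        simp [wt, cut]
      · rw [← MvPowerSeries.coeff_zero_eq_constantCoeff_apply (MvPowerSeries.monomial _ _),
          MvPowerSeries.coeff_monomial_ne (by simp [wt, eq_comm])]
        simp
  · obtain ⟨s, i | c⟩ := x
    · simp only [Q, Sum.elim_inl, cut_y G j₀ h, psi]
      by_cases e : i = j₀
      · simp [e]
      · rw [Finset.sum_eq_single (Sum.inl i) (fun d _ hd => by simp [hd]) (by simp), if_neg e,
          if_pos ⟨rfl, e⟩, ← Algebra.TensorProduct.one_def, map_one, one_mul, Pht_X]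
        simp [swap]
    · simp [wt]

end

end Pool.Agent.Lib.MP_bc213e_ag.TE
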