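import Pool.Agent.Lib.MP_bc213e_ag.TE.U.B
import Pool.Agent.Lib.MP_bc213e_ag.TE.U.D

/-! The components of a section in local coordinates are regular. -/

namespace Pool.Agent.Lib.MP_bc213e_ag.TE

open Pool.Agent.Lib.MP_bc213e_ag.Hyp Pool.Agent.Lib.MP_bc213e_ag.DD Pool.Agent.Lib.MP_bc213e_ag.DL
open Pool.Agent.Lib.MP_bc213e_ag.OW MvPolynomial
open scoped TensorProduct

variable {κ : Type} [Fintype κ] {k p : ℕ} (c : Fin p → Fin k)

theorem prod_lin {R : Type} [CommRing R] (t : Fin p → κ → R) :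
    ∏ r, ∑ d, C (t r d) * X (c r, d) = ∑ o : Fin p → κ,
      monomial (∑ r, Finsupp.single (c r, o r) 1) (∏ r, t r (o r)) := by
  rw [Fintype.prod_sum]
  refine Finset.sum_congr rfl fun o _ => ?_
  rw [monomial_sum_index, Finset.prod_mul_distrib, map_prod]
  rfl

variable {K M ι : Type} [Field K] [Algebra ℂ K] [Field M] [Algebra ℂ M] [Algebra K M]
  [IsScalarTower ℂ K M] {n : ℕ} (S : Su K M ι n) (δ : κ → Derivation ℂ M M)

theorem der_map (δ : Derivation ℂ M M) (u : K) : δ (algebraMap K M u) =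
    ∑ a, algebraMap K M (S.D a u) * δ (algebraMap K M (S.τ a)) := by
  rw [S.frame_ref.expand δ, Fintype.sum_option, S.Dref_none, mul_zero, zero_add]
  exact Finset.sum_congr rfl fun a _ => by rw [S.Dref_some, mul_comm]; rfl

theorem cmpM_dT (s : Fin k) (u : K) : cmpM S δ k (map (algebraMap K M) (dT S.D X s u)) =
    ∑ d, C (δ d (algebraMap K M u)) * X (s, d) := by
  simp only [dT, smul_eq_C_mul, cmpM, map_sum, map_mul, map_C, map_X, aeval_C, aeval_X,
    algebraMap_eq, Finset.mul_sum]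
  rw [Finset.sum_comm]
  refine Finset.sum_congr rfl fun d _ => ?_
  rw [der_map S (δ d), map_sum, Finset.sum_mul]
  exact Finset.sum_congr rfl fun a _ => by rw [map_mul, mul_assoc]

omit [Algebra ℂ M] [IsScalarTower ℂ K M] in
open Classical in
theorem smul_mem_Reg_one {ω : MvPolynomial (Fin k × Fin n) K} (h : ω ∈ Mon K X c) (f : K) :
    f • ω ∈ Reg S.D X c 1 0 := by
  induction h using Submodule.span_induction generalizing f with
  | mem x hx =>
    obtain ⟨o, rfl⟩ := hx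
    refine Submodule.subset_span ⟨f, fun r => S.τ (o r), Valuation.one_apply_le_one f,
      fun r => Valuation.one_apply_le_one _, ?_⟩
    simp [dT, S.hD]
  | zero => simp
  | add x y _ _ hx hy =>
    rw [smul_add]
    exact add_mem (hx f) (hy f)
  | smul g x _ hx =>
    rw [smul_smul]
    exact hx _

variable {S δ c}

theorem coeff_Reg {j : ι} {w : Val K} (hw : S.LocAt j w) {g : M}
    (hδ : ∀ d, ∀ f ∈ S.B j, (g • δ d) f ∈ S.B j) {ω : MvPolynomial (Fin k × Fin n) K}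
    (h : ω ∈ Reg S.D X c w 0) (ν : Fin k × κ →₀ ℕ) :
    g ^ p * (cmpM S δ k (map (algebraMap K M) ω)).coeff ν ∈ S.Ow j w ∧
      ((∀ o : Fin p → κ, ∑ r, Finsupp.single (c r, o r) 1 ≠ ν) →
        (cmpM S δ k (map (algebraMap K M) ω)).coeff ν = 0) := by
  classical
  induction h using Submodule.span_induction with
  | mem x hx =>
    obtain ⟨f, u, h1, h2, rfl⟩ := hx
    simp only [smul_eq_C_mul, map_mul, map_prod, map_C, cmpM_dT, prod_lin, algHom_C, algebraMap_eq,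
      coeff_C_mul, coeff_sum, coeff_monomial]
    refine ⟨?_, fun h => by simp [h]⟩
    rw [mul_left_comm, Finset.mul_sum]
    refine mul_mem (hw.map_mem h1) (sum_mem fun o _ => ?_)
    split_ifs
    · rw [← Fin.prod_const, ← Finset.prod_mul_distrib]
      exact prod_mem fun r _ => hw.der_mem (hδ (o r)) (h2 r)
    · simp
  | zero => simp
  | add x y _ _ hx hy =>
    rw [map_add, map_add, coeff_add, mul_add]
    exact ⟨add_mem hx.1 hy.1, fun h => by rw [hx.2 h, hy.2 h, add_zero]⟩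
  | smul z x _ hx =>
    rw [← algebraMap_smul K, smul_eq_C_mul, map_mul, map_mul, map_C, algHom_C, algebraMap_eq,
      coeff_C_mul, mul_left_comm, ← IsScalarTower.algebraMap_apply]
    exact ⟨mul_mem (Subalgebra.algebraMap_mem _ _) hx.1, fun h => by rw [hx.2 h, mul_zero]⟩

variable [Fintype ι] {Ω : Type} [Field Ω] [Algebra ℂ Ω] {j : ι} {e : S.B j →ₐ[ℂ] Ω}

theorem coeff_VT (hδ : ∀ d, ∀ f ∈ loc (S.B j) e, δ d f ∈ loc (S.B j) e) {m a : ℕ}
    {P : MvPolynomial (Fin k × Fin n) M} (h : P ∈ S.VT c m a) (ν : Fin k × κ →₀ ℕ) :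
    (S.X j ^ a)⁻¹ * (cmpM S δ k P).coeff ν ∈ loc (S.B j) e ∧
      ((∀ o : Fin p → κ, ∑ r, Finsupp.single (c r, o r) 1 ≠ ν) → (cmpM S δ k P).coeff ν = 0) := by
  classical
  obtain ⟨g, g1, g2⟩ := Su.exists_den hδ
  induction h using Submodule.span_induction with
  | mem x hx =>
    obtain ⟨i, -, ω, hω, rfl⟩ := hx
    have h0 : KBB.fr S.x S.g i a j ≠ 0 :=
      mul_ne_zero (zpow_ne_zero _ (S.g j).ne_zero) (pow_ne_zero _ (S.x j).ne_zero)
    have h1 := coeff_Reg (S.locAt_one j) g2 (smul_mem_Reg_one c S hω.1 (KBB.fr S.x S.g i a j)⁻¹) ν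
    have h2 := Su.mem_B_of_Ow (Su.poly_of_Ow h1.1) fun w hw =>
      (coeff_Reg hw.2.2 g2 (hω.2 j w hw) ν).1
    rw [← smul_inv_smul₀ h0 ω]
    generalize (KBB.fr S.x S.g i a j)⁻¹ • ω = ω' at h1 h2 ⊢
    simp only [smul_eq_C_mul, map_mul, map_C, algHom_C, algebraMap_eq, coeff_C_mul]
    refine ⟨?_, fun h => by rw [h1.2 h, mul_zero, mul_zero]⟩
    have e1 : ∀ t, (S.X j ^ a)⁻¹ * (S.u ^ i * (algebraMap K M (KBB.fr S.x S.g i a j) * t)) =
        S.v j ^ i * t := fun t => by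
      have := S.X_ne j
      rw [KBB.fr, zpow_natCast, map_mul, map_pow, map_pow, Su.v, ← DD.Su.X, mul_pow]
      field_simp
    rw [e1]
    exact mul_mem (pow_mem (le_loc e (S.v_mem j)) _)
      ⟨g ^ p, by rw [map_pow]; exact pow_ne_zero _ g1, h2⟩
  | zero => simp
  | add x y _ _ hx hy =>
    rw [map_add, coeff_add, mul_add]
    exact ⟨add_mem hx.1 hy.1, fun h => by rw [hx.2 h, hy.2 h, add_zero]⟩
  | smul z x _ hx =>
    rw [← algebraMap_smul M, map_smul, coeff_smul, smul_eq_mul, mul_left_comm]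
    exact ⟨mul_mem (Subalgebra.algebraMap_mem _ _) hx.1, fun h => by rw [hx.2 h, mul_zero]⟩

theorem coeff_VT_bc {Ω' : Type} [Field Ω'] [Algebra ℂ Ω']
    (hδ : ∀ d, ∀ f ∈ loc (S.B j) e, δ d f ∈ loc (S.B j) e) {m a : ℕ}
    {ω : Ω' ⊗[ℂ] MvPolynomial (Fin k × Fin n) M} (h : ω ∈ (S.VT c m a).baseChange Ω')
    (ν : Fin k × κ →₀ ℕ) :
    (1 : Ω') ⊗ₜ[ℂ] (S.X j ^ a)⁻¹ * (cmpT S δ k Ω' ω).coeff ν ∈
        (Subalgebra.toSubmodule (loc (S.B j) e)).baseChange Ω' ∧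
      ((∀ o : Fin p → κ, ∑ r, Finsupp.single (c r, o r) 1 ≠ ν) →
        (cmpT S δ k Ω' ω).coeff ν = 0) := by
  refine bc_ind (P := fun ω => (1 : Ω') ⊗ₜ[ℂ] (S.X j ^ a)⁻¹ * (cmpT S δ k Ω' ω).coeff ν ∈ _ ∧
    (_ → (cmpT S δ k Ω' ω).coeff ν = 0)) (by simp) (fun z P hP => ?_) (fun s t hs ht => ?_) h
  · rw [coeff_cmpT, Algebra.TensorProduct.tmul_mul_tmul]
    exact ⟨Submodule.tmul_mem_baseChange_of_mem _ (coeff_VT hδ hP ν).1,
      fun h => by rw [(coeff_VT hδ hP ν).2 h, TensorProduct.tmul_zero]⟩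
  · rw [map_add, coeff_add, mul_add]
    exact ⟨add_mem hs.1 ht.1, fun h => by rw [hs.2 h, ht.2 h, add_zero]⟩

end Pool.Agent.Lib.MP_bc213e_ag.TE
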