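import Pool.Agent.Lib.MP_bc213e_ag.TE.IDefs
import Pool.Agent.Lib.MP_bc213e_ag.DL.Rank

/-! The fibration is smooth at the points of the general fibre. -/

namespace Pool.Agent.Lib.MP_bc213e_ag.DD.Geo

open Pool.Agent.Lib.MP_bc213e_ag.Hyp Pool.Agent.Lib.MP_bc213e_ag.DL

variable {K M ι : Type} [Field K] [Algebra ℂ K] [Field M] [Algebra ℂ M] [Algebra K M] {n : ℕ}
  {S : Su K M ι n} {Ω E : Type} [Field Ω] [Algebra ℂ Ω] [Field E] [Algebra ℂ E] [Algebra Ω E]
  [IsScalarTower ℂ Ω E] {b φ : ℕ} (G : Geo S Ω E b φ) [IsScalarTower ℂ K M] [Fintype ι]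
  [IsAlgClosed Ω]

theorem exists_coo_sm {d₁ : ℕ} (hs : S.Sm d₁) (hb : d₁ + 2 ≤ b) {j : ι} (ev : G.C j →ₐ[Ω] Ω) :
    ∃ (z : Fin φ → M) (D : Fin b ⊕ Fin φ → Derivation ℂ M M),
      (∀ c, z c ∈ S.B j) ∧ Coo (G.Oz ev) (Sum.elim G.y z) D := by
  classical
  obtain ⟨ζ, s, hL, cot⟩ := hs j _ (RingHom.ker_isPrime ((G.ez ev).comp (S.inB j)))
    (not_le.1 fun h => by
      have h1 : (b : Cardinal) ≤ (d₁ + 1 : ℕ) := by
        rw [Nat.cast_succ]
        exact (G.dim_pt ev).trans (by gcongr)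
      have h2 := Nat.cast_le.1 h1
      omega)
  obtain ⟨D, hD⟩ := S.coo_of_cot j (G.ez ev) ζ s hL cot
  have hy := G.y_mem_Oz (fun ev d hd i => G.kill ev d hd (G.y_mem i)) ev
  obtain ⟨d, -, hd, -⟩ := G.exists_left
  let e := evL (G.ez ev)
  obtain ⟨σ, hσ, -, -⟩ := complete_with (φ := φ) (by simp [G.card])
    (fun l c => e ⟨D c (G.y l), hD.pres c _ (hy l)⟩) (fun i c => d i (e ⟨_, hD.mem c⟩))
    fun i l => by
      have h1 : TwD e ((d i : Ω →ₗ[ℂ] Ω).toAddMonoidHom.comp (e : G.Oz ev →+ Ω)) :=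
        ⟨fun f g => (congrArg (d i) (map_mul e f g)).trans ((d i).leibniz _ _),
          fun c => (congrArg (d i) (e.commutes c)).trans ((d i).map_algebraMap c)⟩
      rw [← hd i l, ← G.evL_k ev (f := ⟨_, hy l⟩) (G.y_mem l)]
      exact (hD.expand h1 ⟨_, hy l⟩).symm
  let z : Fin φ → M := S.crd j ζ ∘ σ
  have hT : ∀ o, (Sum.elim G.y z ∘ G.ε) o ∈ G.Oz ev := fun o => by
    rw [Function.comp_apply]
    rcases G.ε o with c | c
    · exact hy c
    · exact hD.mem _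
  let J : Matrix (Option (Fin n)) (Option (Fin n)) (G.Oz ev) :=
    Matrix.of fun c o => ⟨D c ((Sum.elim G.y z ∘ G.ε) o), hD.pres c _ (hT o)⟩
  have h1 : e J.det ≠ 0 := by
    rw [AlgHom.map_det]
    refine ((Matrix.isUnit_iff_isUnit_det _).1
      (Matrix.linearIndependent_cols_iff_isUnit.1 ?_)).ne_zero
    convert hσ.comp G.ε G.ε.injective using 1
    funext o c
    have h2 : ∀ (u : Fin b ⊕ Fin φ) (hu : D c (Sum.elim G.y z u) ∈ G.Oz ev), e ⟨_, hu⟩ =
        Sum.elim (fun l c => e ⟨D c (G.y l), hD.pres c _ (hy l)⟩)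
          (fun i => (Pi.single (σ i) (1 : Ω) : Option (Fin n) → Ω)) u c := by
      rintro (u | u) hu
      · rfl
      · rw [show (⟨_, hu⟩ : G.Oz ev) = if c = σ u then 1 else 0 from
          Subtype.ext ((hD.dual c (σ u)).trans (by split_ifs <;> rfl)), Sum.elim_inr,
          Pi.single_apply]
        split_ifs
        · exact map_one e
        · exact map_zero e
    exact h2 (G.ε o) (hD.pres c _ (hT o))
  have h2 : (J.det : M) = (Matrix.of fun c o => D c ((Sum.elim G.y z ∘ G.ε) o)).det :=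
    (G.Oz ev).val.map_det J
  have h4 : (J.det : M) ≠ 0 := fun h => h1 (by rw [show J.det = 0 from Subtype.ext h, map_zero])
  obtain ⟨D', hD'⟩ := hD.exchange _ hT (h2 ▸ h4) (h2 ▸ inv_mem _ h1)
  have h5 := hD'.equiv G.ε.symm
  rw [Function.comp_assoc, Equiv.self_comp_symm, Function.comp_id] at h5
  exact ⟨z, _, fun c => S.crd_mem j ζ _, h5⟩

end Pool.Agent.Lib.MP_bc213e_ag.DD.Geo
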