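import Pool.Agent.Lib.MP_bc213e_ag.TE.U.A
import Pool.Agent.Lib.MP_bc213e_ag.DB.Su
import Pool.Agent.Lib.MP_bc213e_ag.DL.Loc
import Pool.Agent.Lib.MP_bc213e_ag.Hyp.Prime
import Pool.Agent.Lib.MP_bc213e_ag.Hyp.Basic
import Pool.Agent.Lib.MP_bc213e_ag.DC.KJac

/-! The chart rings of `W` along prime divisors of `X`. -/

namespace Pool.Agent.Lib.MP_bc213e_ag.DD.Su

open Pool.Agent.Lib.MP_bc213e_ag.Hyp Pool.Agent.Lib.MP_bc213e_ag.DL

variable {K M ι : Type} [Field K] [Algebra ℂ K] [Field M] [Algebra ℂ M] [Algebra K M]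
  [IsScalarTower ℂ K M] {n : ℕ} (S : Su K M ι n)

/-- The chart ring of `W` localised along `w`. -/
def Ow (j : ι) (w : Val K) : Subalgebra ℂ M where
  carrier := {f | ∃ r ∈ chart S.x j, w r = 1 ∧ algebraMap K M r * f ∈ S.B j}
  mul_mem' := fun ⟨r, h1, h2, h3⟩ ⟨r', h1', h2', h3'⟩ => ⟨r * r', mul_mem h1 h1', by
    rw [map_mul, h2, h2', one_mul], by
    rw [map_mul, mul_mul_mul_comm]
    exact mul_mem h3 h3'⟩
  add_mem' := fun {f g} ⟨r, h1, h2, h3⟩ ⟨r', h1', h2', h3'⟩ => ⟨r * r', mul_mem h1 h1', by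
    rw [map_mul, h2, h2', one_mul], by
    have e : algebraMap K M (r * r') * (f + g) = algebraMap K M r' * (algebraMap K M r * f) +
        algebraMap K M r * (algebraMap K M r' * g) := by
      rw [map_mul]
      ring
    rw [e]
    exact add_mem (mul_mem (S.map_mem_B h1') h3) (mul_mem (S.map_mem_B h1) h3')⟩
  algebraMap_mem' := fun c => ⟨1, one_mem _, map_one _, by
    rw [map_one, one_mul]
    exact Subalgebra.algebraMap_mem _ c⟩

theorem B_le_Ow (j : ι) (w : Val K) : S.B j ≤ S.Ow j w := fun f hf =>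
  ⟨1, one_mem _, map_one _, by rwa [map_one, one_mul]⟩

/-- The valuation ring of `w` is a localisation of the chart ring. -/
def LocAt (j : ι) (w : Val K) : Prop := ∀ z, w z ≤ 1 → ∃ r ∈ chart S.x j, w r = 1 ∧ r * z ∈ chart S.x j

omit [Algebra ℂ M] [IsScalarTower ℂ K M] in
open Classical in
theorem locAt_one (j : ι) : S.LocAt j 1 := fun z _ => by
  have := S.frac j
  obtain ⟨p, q, hq, rfl⟩ := IsFractionRing.div_surjective (chart S.x j) z
  have h : (q : K) ≠ 0 := fun e => nonZeroDivisors.ne_zero hq (Subtype.ext e)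
  refine ⟨q, q.2, Valuation.one_apply_of_ne_zero h, ?_⟩
  exact (mul_div_cancel₀ (p : K) h).symm ▸ p.2

variable {S}

theorem LocAt.map_mem {j : ι} {w : Val K} (h : S.LocAt j w) {z : K} (hz : w z ≤ 1) :
    algebraMap K M z ∈ S.Ow j w := by
  obtain ⟨r, h1, h2, h3⟩ := h z hz
  exact ⟨r, h1, h2, map_mul (algebraMap K M) r z ▸ S.map_mem_B h3⟩

theorem inv_mem_Ow {j : ι} {w : Val K} {r : K} (h1 : r ∈ chart S.x j) (h2 : w r = 1) :
    (algebraMap K M r)⁻¹ ∈ S.Ow j w := ⟨r, h1, h2, by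
  rw [mul_inv_cancel₀ ((map_ne_zero _).2 fun e => by simp [e] at h2)]
  exact one_mem _⟩

/-- A derivation that preserves the chart ring preserves its localisations. -/
theorem LocAt.der_mem {j : ι} {w : Val K} (h : S.LocAt j w) {δ : Derivation ℂ M M}
    (hδ : ∀ f ∈ S.B j, δ f ∈ S.B j) {z : K} (hz : w z ≤ 1) :
    δ (algebraMap K M z) ∈ S.Ow j w := by
  obtain ⟨r, h1, h2, h3⟩ := h z hz
  have h0 : algebraMap K M r ≠ 0 := (map_ne_zero _).2 fun e => by simp [e] at h2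
  have e : δ (algebraMap K M z) = (algebraMap K M r)⁻¹ *
      (δ (algebraMap K M (r * z)) - algebraMap K M z * δ (algebraMap K M r)) := by
    rw [map_mul, Derivation.leibniz, smul_eq_mul, smul_eq_mul, add_sub_cancel_right,
      inv_mul_cancel_left₀ h0]
  rw [e]
  exact mul_mem (inv_mem_Ow h1 h2) (sub_mem (S.B_le_Ow j w (hδ _ (S.map_mem_B h3)))
    (mul_mem (h.map_mem hz) (S.B_le_Ow j w (hδ _ (S.map_mem_B h1)))))

theorem poly_of_Ow {j : ι} {w : Val K} {z : M} (h : z ∈ S.Ow j w) :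
    ∃ p : Polynomial K, Polynomial.aeval S.u p = z := by
  obtain ⟨r, -, h2, h3⟩ := h
  obtain ⟨p, -, hp⟩ := S.mem_B.1 h3
  refine ⟨Polynomial.C r⁻¹ * p, ?_⟩
  rw [map_mul, hp, Polynomial.aeval_C, map_inv₀,
    inv_mul_cancel_left₀ ((map_ne_zero _).2 fun e => by simp [e] at h2)]

variable [Fintype ι]

/-- Extension over codimension two. -/
theorem mem_B_of_Ow {j : ι} {z : M} (h0 : ∃ p : Polynomial K, Polynomial.aeval S.u p = z)
    (h : ∀ w, PrimeDiv (chart S.x j) w → z ∈ S.Ow j w) : z ∈ S.B j := by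
  have := S.frac j
  have := S.norm j
  have := chart_noeth S.x j
  obtain ⟨p, rfl⟩ := h0
  refine S.mem_B.2 ⟨p, fun i => hartogs fun w hw => ?_, rfl⟩
  obtain ⟨r, -, h2, h3⟩ := h w hw
  obtain ⟨q, hq, e⟩ := S.mem_B.1 h3
  rw [← Polynomial.aeval_C S.u, ← map_mul] at e
  have h4 := hw.2.1 _ (hq i)
  rwa [transcendental_iff_injective.1 S.tr e, Polynomial.coeff_C_mul, mul_div_assoc, map_mul, h2,
    one_mul] at h4

theorem mem_V_of_Ow {m a : ℕ} {f : M} (h0 : f ∈ S.Deg m)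
    (h : ∀ j w, PrimeDiv (chart S.x j) w → f / S.X j ^ a ∈ S.Ow j w) : f ∈ S.V m a := by
  refine ⟨fun j => mem_B_of_Ow ?_ (h j), h0⟩
  obtain ⟨p, -, rfl⟩ := S.mem_Deg.1 h0
  exact ⟨p * Polynomial.C ((S.x j : K) ^ a)⁻¹, by
    rw [map_mul, Polynomial.aeval_C, map_inv₀, map_pow, div_eq_mul_inv, X]⟩

theorem mem_B_of_pow {j : ι} {z : M} (h : z ^ S.m ∈ S.B j) : z ∈ S.B j := by
  have := S.frac_B j
  have := S.norm_B j
  have h1 : IsIntegral (S.B j) (z ^ S.m) := isIntegral_algebraMap (x := (⟨_, h⟩ : S.B j))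
  obtain ⟨y, hy⟩ := IsIntegrallyClosed.algebraMap_eq_of_integral
    (IsIntegral.of_pow (Nat.pos_of_ne_zero S.mpos) h1)
  exact hy ▸ y.2

theorem kan_add {j : ι} {γ f g : M} (hf : f ^ S.m / γ ∈ S.B j) (hg : g ^ S.m / γ ∈ S.B j) :
    (f + g) ^ S.m / γ ∈ S.B j := by
  rw [add_pow, Finset.sum_div]
  refine sum_mem fun i hi => ?_
  rw [mul_div_right_comm]
  refine mul_mem (mem_B_of_pow ?_) (natCast_mem _ _)
  obtain ⟨l, hl⟩ := Nat.exists_eq_add_of_le (Nat.lt_succ_iff.1 (Finset.mem_range.1 hi))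
  have e : (f ^ i * g ^ (S.m - i) / γ) ^ S.m = (f ^ S.m / γ) ^ i * (g ^ S.m / γ) ^ l := by
    rw [div_pow, div_pow, div_pow, div_mul_div_comm, ← pow_add, ← hl, mul_pow, ← pow_mul,
      ← pow_mul, ← pow_mul, ← pow_mul, show S.m - i = l by omega, mul_comm i, mul_comm l]
  rw [e]
  exact mul_mem (pow_mem hf _) (pow_mem hg _)

variable (S) in
/-- Sections of `e L / m + A H` near `w`. -/
def Kw (j : ι) (w : Val K) (e A : ℕ) : Submodule ℂ M where
  carrier := {f | ∃ r ∈ chart S.x j, w r = 1 ∧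
    (algebraMap K M r * (f / S.X j ^ A)) ^ S.m / algebraMap K M (S.g j) ^ e ∈ S.B j}
  add_mem' := fun {f g} ⟨r, h1, h2, h3⟩ ⟨r', h1', h2', h3'⟩ => ⟨r * r', mul_mem h1 h1', by
    rw [map_mul, h2, h2', one_mul], by
    rw [add_div, mul_add, map_mul]
    refine kan_add ?_ ?_
    · rw [mul_right_comm, mul_pow, mul_div_right_comm]
      exact mul_mem h3 (pow_mem (S.map_mem_B h1') _)
    · rw [mul_assoc, mul_pow, mul_div_assoc]
      exact mul_mem (pow_mem (S.map_mem_B h1) _) h3'⟩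
  zero_mem' := ⟨1, one_mem _, map_one _, by simp [S.mpos]⟩
  smul_mem' := fun c f ⟨r, h1, h2, h3⟩ => ⟨r, h1, h2, by
    rw [smul_div_assoc, mul_smul_comm, smul_pow, smul_div_assoc]
    exact Subalgebra.smul_mem _ h3 _⟩

theorem Kw_mul {j : ι} {w : Val K} {e e' A A' : ℕ} {f g : M} (hf : f ∈ S.Kw j w e A)
    (hg : g ∈ S.Kw j w e' A') : f * g ∈ S.Kw j w (e + e') (A + A') := by
  obtain ⟨r, h1, h2, h3⟩ := hf
  obtain ⟨r', h1', h2', h3'⟩ := hg
  refine ⟨r * r', mul_mem h1 h1', by rw [map_mul, h2, h2', one_mul], ?_⟩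
  rw [map_mul, pow_add, pow_add, mul_div_mul_comm, mul_mul_mul_comm, mul_pow, mul_div_mul_comm]
  exact mul_mem h3 h3'

theorem mem_Kw_zero {j : ι} {w : Val K} {A : ℕ} {f : M} (h : f / S.X j ^ A ∈ S.Ow j w) :
    f ∈ S.Kw j w 0 A := by
  obtain ⟨r, h1, h2, h3⟩ := h
  exact ⟨r, h1, h2, by
    rw [pow_zero, div_one]
    exact pow_mem h3 _⟩

theorem jac_mem_Kw {j : ι} {w : Val K} (hw : PrimeDiv (chart S.x j) w) {u : Fin n → K}
    (hu : ∀ l, w (u l) ≤ 1) : algebraMap K M (jac S.D u) ∈ S.Kw j w 1 0 := by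
  obtain ⟨r, h1, h2, h3⟩ := hw.2.2 (jac S.D u ^ S.m / S.g j) (by
    rw [map_div₀, map_pow]
    exact div_le_one_of_le₀ (DC.hb_of_can (S.g j).ne_zero (S.eff j) hw u hu) zero_le)
  obtain ⟨l, hl⟩ := Nat.exists_eq_succ_of_ne_zero S.mpos
  refine ⟨r, h1, h2, ?_⟩
  rw [pow_zero, div_one, pow_one, ← map_mul, ← map_pow, ← map_div₀, mul_pow, mul_div_assoc]
  nth_rewrite 1 [hl]
  rw [pow_succ, mul_assoc]
  exact S.map_mem_B (mul_mem (pow_mem h1 _) h3)

theorem Kw_div {j : ι} {w : Val K} {e A : ℕ} {f : M} (h : f ∈ S.Kw j w (S.m * e) A) :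
    f * S.u ^ e / S.X j ^ A ∈ S.Ow j w := by
  obtain ⟨r, h1, h2, h3⟩ := h
  rw [mul_comm S.m, pow_mul, ← div_pow] at h3
  refine ⟨r, h1, h2, ?_⟩
  have hg : algebraMap K M (S.g j) ≠ 0 := (map_ne_zero _).2 (S.g j).ne_zero
  have e1 : algebraMap K M r * (f * S.u ^ e / S.X j ^ A) =
      algebraMap K M r * (f / S.X j ^ A) / algebraMap K M (S.g j) ^ e * S.v j ^ e := by
    rw [v, mul_pow]
    field_simp
  rw [e1]
  exact mul_mem (mem_B_of_pow h3) (pow_mem (S.v_mem j) _)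

omit [Fintype ι] in
theorem Deg_mul {m m' : ℕ} {f g : M} (hf : f ∈ S.Deg m) (hg : g ∈ S.Deg m') :
    f * g ∈ S.Deg (m + m') := by
  obtain ⟨p, hp, rfl⟩ := S.mem_Deg.1 hf
  obtain ⟨q, hq, rfl⟩ := S.mem_Deg.1 hg
  exact S.mem_Deg.2 ⟨p * q, Polynomial.natDegree_mul_le_of_le hp hq, map_mul _ _ _⟩

omit [IsScalarTower ℂ K M] in
/-- A common denominator for the derivations of a system of coordinates. -/
theorem exists_den {Ω κ : Type} [Field Ω] [Algebra ℂ Ω] [Fintype κ] {j : ι} {e : S.B j →ₐ[ℂ] Ω}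
    {D : κ → Derivation ℂ M M} (h : ∀ c, ∀ f ∈ loc (S.B j) e, D c f ∈ loc (S.B j) e) :
    ∃ g : S.B j, e g ≠ 0 ∧ ∀ c, ∀ f ∈ S.B j, ((g : M) • D c) f ∈ S.B j := by
  classical
  choose g h1 h2 using fun x : κ × Option ι => h x.1 _ (le_loc e (S.gen_mem j x.2))
  refine ⟨∏ x, g x, by rw [map_prod]; exact Finset.prod_ne_zero_iff.2 fun x _ => h1 x,
    fun c f hf => ?_⟩
  induction hf using Algebra.adjoin_induction with
  | mem x hx =>
    obtain ⟨o, rfl⟩ := hx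
    rw [← Finset.prod_erase_mul _ _ (Finset.mem_univ (c, o)), Derivation.smul_apply, smul_eq_mul,
      MulMemClass.coe_mul, mul_assoc]
    exact mul_mem (SetLike.coe_mem _) (h2 (c, o))
  | algebraMap r =>
    rw [Derivation.map_algebraMap]
    exact zero_mem _
  | add x y _ _ hx hy =>
    rw [map_add]
    exact add_mem hx hy
  | mul x y kx ky hx hy =>
    rw [Derivation.leibniz, smul_eq_mul, smul_eq_mul]
    exact add_mem (mul_mem kx hy) (mul_mem ky hx)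

end Pool.Agent.Lib.MP_bc213e_ag.DD.Su
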