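import Pool.Agent.Lib.MP_bc213e_ag.Jet.Fil
import Pool.Agent.Lib.MP_bc213e_ag.Hyp.ADefs

/-! Leading terms of polynomials with power series coefficients; base change of subspaces. -/

namespace Pool.Agent.Lib.MP_bc213e_ag.TE

open Pool.Agent.Lib.MP_bc213e_ag.Hyp Pool.Agent.Lib.MP_bc213e_ag.Jet
open MvPowerSeries
open scoped TensorProduct MonomialOrder

section bc

variable {Ω F : Type} [CommRing Ω] [Algebra ℂ Ω] [AddCommGroup F] [Module ℂ F]

theorem mem_bc {V : Submodule ℂ F} {s : Ω ⊗[ℂ] F} :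
    s ∈ V.baseChange Ω ↔ ∀ ℓ, co ℓ s ∈ V := by
  refine ⟨?_, fun h => ?_⟩
  · rintro ⟨s, rfl⟩ ℓ
    induction s with
    | zero => simp
    | add s t hs ht =>
      rw [map_add, map_add]
      exact add_mem hs ht
    | tmul c f =>
      rw [LinearMap.baseChange_tmul, co_tmul]
      exact V.smul_mem _ f.2
  · classical
    let B := Module.Basis.ofVectorSpace ℂ Ω
    rw [← (TensorProduct.equivFinsuppOfBasisLeft B).symm_apply_apply s,
      TensorProduct.equivFinsuppOfBasisLeft_symm_apply]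
    refine sum_mem fun j _ => V.tmul_mem_baseChange_of_mem _ ?_
    rw [TensorProduct.equivFinsuppOfBasisLeft_apply]
    exact h _

theorem co_mul {F : Type} [CommRing F] [Algebra ℂ F] (ℓ : Ω →ₗ[ℂ] ℂ) (c : F) (y : Ω ⊗[ℂ] F) :
    co ℓ (((1 : Ω) ⊗ₜ[ℂ] c) * y) = c * co ℓ y := by
  induction y with
  | zero => simp
  | tmul a f => rw [Algebra.TensorProduct.tmul_mul_tmul, one_mul, co_tmul, co_tmul, mul_smul_comm]
  | add x y hx hy => simp only [mul_add, map_add, hx, hy]

theorem bc_ind {V : Submodule ℂ F} {P : Ω ⊗[ℂ] F → Prop} (h0 : P 0)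
    (h1 : ∀ c, ∀ f ∈ V, P (c ⊗ₜ f)) (h2 : ∀ s t, P s → P t → P (s + t)) {s : Ω ⊗[ℂ] F}
    (hs : s ∈ V.baseChange Ω) : P s := by
  obtain ⟨s, rfl⟩ := hs
  induction s with
  | zero => rwa [map_zero]
  | add s t hs ht =>
    rw [map_add]
    exact h2 _ _ hs ht
  | tmul c f => exact h1 c f f.2

end bc

section fil

variable {β R R' : Type} [CommRing R] [CommRing R'] (m : MonomialOrder β)

theorem Fil_prod {J : Type} (s : Finset J) {α : J → β →₀ ℕ} {f : J → MvPowerSeries β R}
    (h : ∀ i ∈ s, f i ∈ Fil m (α i)) : ∏ i ∈ s, f i ∈ Fil m (∑ i ∈ s, α i) ∧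
      coeff (∑ i ∈ s, α i) (∏ i ∈ s, f i) = ∏ i ∈ s, coeff (α i) (f i) := by
  classical
  induction s using Finset.induction_on with
  | empty => simpa using mem_Fil_zero m (1 : MvPowerSeries β R)
  | insert i s hi ih =>
    have h1 := ih fun l hl => h l (Finset.mem_insert_of_mem hl)
    have h2 := h i (Finset.mem_insert_self i s)
    rw [Finset.prod_insert hi, Finset.sum_insert hi, Finset.prod_insert hi,
      coeff_Fil_mul m h2 h1.1, h1.2]
    exact ⟨Fil_mul m h2 h1.1, rfl⟩

theorem Fil_det {J : Type} [Fintype J] [DecidableEq J] {α : J → β →₀ ℕ}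
    {A : Matrix J J (MvPowerSeries β R)} (h : ∀ i l, A i l ∈ Fil m (α l)) :
    A.det ∈ Fil m (∑ l, α l) ∧
      coeff (∑ l, α l) A.det = (Matrix.of fun i l => coeff (α l) (A i l)).det := by
  have h1 := fun σ : Equiv.Perm J => Fil_prod m Finset.univ (f := fun l => A (σ l) l)
    fun l _ => h (σ l) l
  rw [Matrix.det_apply, Matrix.det_apply, map_sum]
  refine ⟨sum_mem fun σ _ => ?_, Finset.sum_congr rfl fun σ _ => ?_⟩
  · rw [Units.smul_def]
    exact zsmul_mem (h1 σ).1 _
  · rw [Units.smul_def, Units.smul_def, map_zsmul, (h1 σ).2]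
    rfl

theorem Fil_map (f : R →+* R') {α : β →₀ ℕ} {φ : MvPowerSeries β R} (h : φ ∈ Fil m α) :
    map f φ ∈ Fil m α := fun γ hγ => by rw [coeff_map, h γ hγ, map_zero]

theorem monomial_mem_Fil (α : β →₀ ℕ) (r : R) : monomial α r ∈ Fil m α := fun γ hγ => by
  classical
  rw [coeff_monomial, if_neg fun e => by simp [e] at hγ]

theorem lead_unique {α γ : β →₀ ℕ} {φ : MvPowerSeries β R} (h : φ ∈ Fil m α)
    (h0 : coeff α φ ≠ 0) (h' : φ ∈ Fil m γ) (h0' : coeff γ φ ≠ 0) : α = γ :=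
  m.toSyn.injective (le_antisymm (not_lt.1 fun e => h0' (h _ e)) (not_lt.1 fun e => h0 (h' _ e)))

variable {σ : Type}

/-- `Λ` is the coefficient of `P` at `α` and there are no terms below `α`. -/
def Ld (α : β →₀ ℕ) (P : MvPolynomial σ (MvPowerSeries β R)) (Λ : MvPolynomial σ R) : Prop :=
  ∀ ν, P.coeff ν ∈ Fil m α ∧ coeff α (P.coeff ν) = Λ.coeff ν

/-- Substitution of series with a common order `ω`. -/
theorem Ld.eval {α ω ω' : β →₀ ℕ} {P : MvPolynomial σ (MvPowerSeries β R)}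
    {Λ : MvPolynomial σ R} (h : Ld m α P Λ) (f : R →+* R') {ρ : σ → MvPowerSeries β R'}
    (hρ : ∀ x, ρ x ∈ Fil m ω) (hω : ∀ ν ∈ P.support, ν.degree • ω = ω') :
    P.eval₂ (map f) ρ ∈ Fil m (α + ω') ∧
      coeff (α + ω') (P.eval₂ (map f) ρ) = Λ.eval₂ f fun x => coeff ω (ρ x) := by
  classical
  have h1 : ∀ ν ∈ P.support, ∏ x ∈ ν.support, ρ x ^ ν x ∈ Fil m ω' ∧
      coeff ω' (∏ x ∈ ν.support, ρ x ^ ν x) = ∏ x ∈ ν.support, coeff ω (ρ x) ^ ν x := by
    intro ν hν
    have h2 := Fil_prod m ν.support (α := fun x => ν x • ω) (f := fun x => ρ x ^ ν x)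
      fun x _ => (Fil_pow m (hρ x) _).1
    rw [← Finset.sum_smul, ← Finsupp.degree_apply, hω ν hν] at h2
    exact ⟨h2.1, h2.2.trans (Finset.prod_congr rfl fun x _ => (Fil_pow m (hρ x) _).2)⟩
  have h3 : Λ.support ⊆ P.support := fun ν hν => MvPolynomial.mem_support_iff.2 fun e =>
    MvPolynomial.mem_support_iff.1 hν (by rw [← (h ν).2, e, map_zero])
  rw [MvPolynomial.eval₂_eq, MvPolynomial.eval₂_eq, map_sum]
  refine ⟨sum_mem fun ν hν => Fil_mul m (Fil_map m f (h ν).1) (h1 ν hν).1, ?_⟩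
  rw [Finset.sum_subset h3 fun ν _ hν => by
    rw [MvPolynomial.notMem_support_iff.1 hν, map_zero, zero_mul]]
  refine Finset.sum_congr rfl fun ν hν => ?_
  rw [coeff_Fil_mul m (Fil_map m f (h ν).1) (h1 ν hν).1, (h1 ν hν).2, coeff_map, (h ν).2]

/-- A polynomial with power series coefficients as a power series. -/
noncomputable def swap : MvPolynomial σ (MvPowerSeries β R) →+*
    MvPowerSeries β (MvPolynomial σ R) :=
  MvPolynomial.eval₂Hom (map MvPolynomial.C) fun x => C (MvPolynomial.X x)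

theorem coeff_swap (P : MvPolynomial σ (MvPowerSeries β R)) (γ : β →₀ ℕ) (ν : σ →₀ ℕ) :
    (coeff γ (swap P)).coeff ν = coeff γ (P.coeff ν) := by
  classical
  induction P using MvPolynomial.induction_on' with
  | add p q hp hq => simp only [map_add, MvPolynomial.coeff_add, hp, hq]
  | monomial μ c =>
    have e : (μ.prod fun x l => (C (MvPolynomial.X x) : MvPowerSeries β (MvPolynomial σ R)) ^ l) =
        C (MvPolynomial.monomial μ 1) := by
      rw [MvPolynomial.monomial_eq, map_one, one_mul, Finsupp.prod, Finsupp.prod, map_prod]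
      simp only [map_pow]
    rw [swap, MvPolynomial.eval₂Hom_monomial, e, coeff_mul_C, coeff_map, MvPolynomial.C_mul_monomial,
      mul_one, MvPolynomial.coeff_monomial, MvPolynomial.coeff_monomial]
    split_ifs <;> simp

theorem Ld_iff {α : β →₀ ℕ} {P : MvPolynomial σ (MvPowerSeries β R)} {Λ : MvPolynomial σ R} :
    Ld m α P Λ ↔ swap P ∈ Fil m α ∧ coeff α (swap P) = Λ := by
  simp only [Ld, mem_Fil, MvPolynomial.ext_iff, coeff_swap, MvPolynomial.coeff_zero, forall_and]
  exact and_congr_left' ⟨fun h γ hγ ν => h ν γ hγ, fun h ν γ hγ => h γ hγ ν⟩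

end fil

/-- A nonzero polynomial does not vanish on the image of the natural points under an invertible
linear map. -/
theorem exists_eval_ne {k J E : Type} [Fintype J] [DecidableEq J] [Field E] [CharZero E]
    {Λ : MvPolynomial (k × J) E} (h : Λ ≠ 0) {A : Matrix J J E} (hA : A.det ≠ 0) :
    ∃ t : k → J → ℕ, MvPolynomial.eval (fun x : k × J => ∑ l, A x.2 l * t x.1 l) Λ ≠ 0 := by
  by_contra h0
  push Not at h0
  have : Infinite E := Infinite.of_injective _ Nat.cast_injective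
  let Q := MvPolynomial.bind₁ (fun x : k × J =>
    ∑ l, MvPolynomial.C (A x.2 l) * MvPolynomial.X (x.1, l)) Λ
  have e : ∀ y : k × J → E, MvPolynomial.eval y Q =
      MvPolynomial.eval (fun x : k × J => ∑ l, A x.2 l * y (x.1, l)) Λ := fun y => by
    refine (MvPolynomial.eval₂Hom_bind₁ (RingHom.id E) y _ Λ).trans ?_
    simp only [map_sum, map_mul, MvPolynomial.eval₂Hom_C, MvPolynomial.eval₂Hom_X', RingHom.id_apply]
    rfl
  have h1 : Q = 0 := MvPolynomial.funext_set (fun _ => Set.range (Nat.cast : ℕ → E))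
    (fun _ => Set.infinite_range_of_injective Nat.cast_injective) fun y hy => by
      choose t ht using fun x => hy x trivial
      rw [e, map_zero, ← h0 fun s l => t (s, l)]
      simp only [ht]
  refine h (MvPolynomial.funext fun y => ?_)
  have h2 := e fun x => (A⁻¹.mulVec fun l => y (x.1, l)) x.2
  rw [h1, map_zero] at h2
  rw [map_zero, h2]
  congr 2
  funext x
  have h3 := congrFun (Matrix.mulVec_mulVec (fun l => y (x.1, l)) A A⁻¹) x.2
  rw [Matrix.mul_nonsing_inv _ hA.isUnit, Matrix.one_mulVec] at h3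
  exact h3.symm

end Pool.Agent.Lib.MP_bc213e_ag.TE
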