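import Pool.Agent.Lib.MP_bc213e_ag.TE.U.A
import Pool.Agent.Lib.MP_bc213e_ag.DF.W

/-! Weighted Taylor expansion of polynomials. -/

namespace Pool.Agent.Lib.MP_bc213e_ag.TE

open Pool.Agent.Lib.MP_bc213e_ag.Hyp Pool.Agent.Lib.MP_bc213e_ag.Jet Pool.Agent.Lib.MP_bc213e_ag.DD
open Pool.Agent.Lib.MP_bc213e_ag.DA
open MvPowerSeries
open scoped TensorProduct MonomialOrder

section pht

variable {β σ T R : Type} [CommRing T] [CommRing R] (m : MonomialOrder β)
  (ta : T →+* MvPowerSeries β R) (e : σ → β →₀ ℕ)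

/-- Expansion of the coefficients; the variable `x` has weight `e x`. -/
noncomputable def Pht : MvPolynomial σ T →+* MvPolynomial σ (MvPowerSeries β R) :=
  MvPolynomial.eval₂Hom (MvPolynomial.C.comp ta)
    fun x => MvPolynomial.C (monomial (e x) 1) * MvPolynomial.X x

@[simp] theorem Pht_C (t : T) : Pht ta e (MvPolynomial.C t) = MvPolynomial.C (ta t) :=
  MvPolynomial.eval₂Hom_C _ _ _

@[simp] theorem Pht_X (x : σ) :
    Pht ta e (MvPolynomial.X x) = MvPolynomial.C (monomial (e x) 1) * MvPolynomial.X x :=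
  MvPolynomial.eval₂Hom_X' _ _ _

theorem coeff_Pht (P : MvPolynomial σ T) (ν : σ →₀ ℕ) :
    (Pht ta e P).coeff ν = monomial (ν.sum fun x l => l • e x) 1 * ta (P.coeff ν) := by
  classical
  induction P using MvPolynomial.induction_on' with
  | add p q hp hq => simp only [map_add, MvPolynomial.coeff_add, hp, hq, mul_add]
  | monomial μ c =>
    have h1 : ∀ s : Finset σ, ∏ x ∈ s, (monomial (e x) (1 : R)) ^ μ x =
        monomial (∑ x ∈ s, μ x • e x) 1 := fun s => by
      induction s using Finset.induction_on with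
      | empty => simp
      | insert x s hx ih =>
        rw [Finset.prod_insert hx, Finset.sum_insert hx, ih, monomial_pow, monomial_mul_monomial,
          one_pow, one_mul]
    have h2 : Pht ta e (MvPolynomial.monomial μ c) =
        MvPolynomial.monomial μ (monomial (μ.sum fun x l => l • e x) 1 * ta c) := by
      rw [Pht, MvPolynomial.eval₂Hom_monomial, MvPolynomial.monomial_eq, Finsupp.sum, ← h1,
        Finsupp.prod, Finsupp.prod]
      simp only [mul_pow, Finset.prod_mul_distrib, map_mul, map_prod, map_pow, RingHom.comp_apply]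
      ring
    rw [h2, MvPolynomial.coeff_monomial, MvPolynomial.coeff_monomial]
    split_ifs with h
    · rw [h]
    · rw [map_zero, mul_zero]

theorem support_Pht (P : MvPolynomial σ T) : (Pht ta e P).support ⊆ P.support := fun ν hν =>
  MvPolynomial.mem_support_iff.2 fun h => MvPolynomial.mem_support_iff.1 hν (by
    rw [coeff_Pht, h, map_zero, mul_zero])

/-- Substitutions that respect the weights. -/
theorem Ld_sub {α : β →₀ ℕ} (Q : σ → MvPolynomial σ T)
    (ρ : σ → MvPowerSeries β (MvPolynomial σ R))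
    (hρ : ∀ x, swap (Pht ta e (Q x)) = monomial (e x) 1 * ρ x) {P : MvPolynomial σ T}
    {Λ : MvPolynomial σ R} (h : Ld m α (Pht ta e P) Λ) :
    Ld m α (Pht ta e (MvPolynomial.aeval Q P))
      (Λ.eval₂ MvPolynomial.C fun x => constantCoeff (ρ x)) := by
  have h1 : (swap.comp (Pht ta e)).comp (MvPolynomial.aeval Q).toRingHom =
      (MvPolynomial.eval₂Hom (map MvPolynomial.C) ρ).comp (Pht ta e) := by
    refine MvPolynomial.ringHom_ext (fun t => ?_) fun x => ?_
    · simp [swap]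
    · simpa [map_monomial] using hρ x
  have h2 := h.eval m MvPolynomial.C (ω' := 0) (fun x => mem_Fil_zero m (ρ x))
    fun _ _ => smul_zero _
  rw [add_zero] at h2
  rw [Ld_iff, show swap (Pht ta e (MvPolynomial.aeval Q P)) = _ from RingHom.congr_fun h1 P]
  simp only [coeff_zero_eq_constantCoeff_apply] at h2
  exact h2

/-- Contraction of a homogeneous polynomial. -/
theorem eval_Pht (Q : σ → MvPolynomial σ T) (θ : σ → T) (ρ : σ → MvPowerSeries β R)
    (κ : MvPowerSeries β R) (hρ : ∀ x, (Pht ta e (Q x)).eval ρ = κ * ta (θ x)) {p : ℕ}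
    {P : MvPolynomial σ T} (hP : ∀ ν ∈ P.support, ν.degree = p) :
    (Pht ta e (MvPolynomial.aeval Q P)).eval ρ = κ ^ p * ta (P.eval θ) := by
  have h1 : ((MvPolynomial.eval ρ).comp (Pht ta e)).comp (MvPolynomial.aeval Q).toRingHom =
      MvPolynomial.eval₂Hom ta fun x => κ * ta (θ x) := by
    refine MvPolynomial.ringHom_ext (fun t => ?_) fun x => ?_
    · simp
    · simpa using hρ x
  rw [show (Pht ta e (MvPolynomial.aeval Q P)).eval ρ = _ from RingHom.congr_fun h1 P,
    MvPolynomial.coe_eval₂Hom, MvPolynomial.eval₂_eq, MvPolynomial.eval_eq, map_sum, Finset.mul_sum]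
  refine Finset.sum_congr rfl fun ν hν => ?_
  simp only [mul_pow, Finset.prod_mul_distrib, Finset.prod_pow_eq_pow_sum, map_mul, map_prod,
    map_pow]
  rw [← Finsupp.degree_apply, hP ν hν]
  ring

end pht

variable {Ω E M : Type} [Field Ω] [Algebra ℂ Ω] [Field E] [Algebra ℂ E] [Algebra Ω E]
  [IsScalarTower ℂ Ω E] [Field M] [Algebra ℂ M] [CharZero E] {b : ℕ}

theorem coeff_tayL_mem (ι : M →ₐ[ℂ] E) {D : Fin b → Derivation ℂ M M} (h : Comm D)
    {O : Subalgebra ℂ M} {OF : Subalgebra Ω E} (h1 : ∀ f ∈ O, ι f ∈ OF)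
    (h2 : ∀ i, ∀ f ∈ O, D i f ∈ O) {s : Ω ⊗[ℂ] M}
    (hs : s ∈ (Subalgebra.toSubmodule O).baseChange Ω) (β : Fin b →₀ ℕ) :
    coeff β (tayL Ω ι h s) ∈ OF := by
  have : CharZero Ω := Algebra.charZero_of_charZero ℂ Ω
  rw [coeff_tayL, Rat.smul_def, ← map_ratCast (algebraMap Ω E)]
  refine mul_mem (OF.algebraMap_mem _) (bc_ind (P := fun t => evT Ω ι t ∈ OF) (by simp)
    (fun c f hf => mul_mem (OF.algebraMap_mem _) (h1 f hf))
    (fun s t hs ht => by rw [map_add]; exact add_mem hs ht) (dpow_mem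
      (S := ((Subalgebra.toSubmodule O).baseChange Ω : Set (Ω ⊗[ℂ] M))) _ (fun i t ht => ?_) β hs))
  exact bc_ind (P := fun t => rder (D i) t ∈ (Subalgebra.toSubmodule O).baseChange Ω) (by simp)
    (fun c f hf => Submodule.tmul_mem_baseChange_of_mem _ (h2 i f hf))
    (fun s t hs ht => by rw [map_add]; exact add_mem hs ht) ht

variable {K ι : Type} [Field K] [Algebra ℂ K] [Algebra K M] {n φ : ℕ} {S : Su K M ι n}
  (G : Geo S Ω E b φ) {z z' : Fin φ → M} {D D' : Fin b ⊕ Fin φ → Derivation ℂ M M}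

/-- The lowest terms of a shifted expansion do not depend on the frame. -/
theorem shift_frame (h : Frame (Sum.elim G.y z) D) (h' : Frame (Sum.elim G.y z') D')
    {α γ : Fin b →₀ ℕ} {s : Ω ⊗[ℂ] M}
    (hs : monomial γ 1 * tayL Ω G.ι (Comm.inl h.comm) s ∈ Fil MonomialOrder.degLex α)
    {β : Fin b →₀ ℕ} (hβ : β ≼[MonomialOrder.degLex] α) :
    coeff β (monomial γ 1 * tayL Ω G.ι (Comm.inl h'.comm) s) =
      coeff β (monomial γ 1 * tayL Ω G.ι (Comm.inl h.comm) s) := by
  rw [coeff_monomial_mul, coeff_monomial_mul]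
  split_ifs with hγ
  · obtain ⟨δ, rfl⟩ := exists_add_of_le hγ
    rw [add_tsub_cancel_left, G.coeff_frame h h' δ s fun δ' hδ => ?_]
    have h1 := Fil_le_Ord α hs (γ + δ') (lt_of_lt_of_le (by simpa using hδ) (lemg_deg hβ))
    rwa [coeff_add_monomial_mul, one_mul] at h1
  · rfl

theorem Ld_frame (h : Frame (Sum.elim G.y z) D) (h' : Frame (Sum.elim G.y z') D') {σ : Type}
    (e : σ → Fin b →₀ ℕ) {α : Fin b →₀ ℕ} {P : MvPolynomial σ (Ω ⊗[ℂ] M)} {Λ : MvPolynomial σ E}
    (hP : Ld MonomialOrder.degLex α (Pht (tayL Ω G.ι (Comm.inl h.comm)).toRingHom e P) Λ) :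
    Ld MonomialOrder.degLex α (Pht (tayL Ω G.ι (Comm.inl h'.comm)).toRingHom e P) Λ := fun ν => by
  have h1 := hP ν
  rw [coeff_Pht] at h1 ⊢
  exact ⟨fun β hβ => (shift_frame G h h' h1.1 hβ.le).trans (h1.1 β hβ),
    (shift_frame G h h' h1.1 le_rfl).trans h1.2⟩

end Pool.Agent.Lib.MP_bc213e_ag.TE
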